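import Mathlib

/-! PROJECT TC (helper936), MP_cdfe0d_gt: definitions and leaf statements. -/

namespace Pool.Agent.N936.TC

open Set Topology

/-- A subcontinuum of a (Hausdorff) space: a compact connected nonempty subset. -/
def IsSubcontinuum {Z : Type} [TopologicalSpace Z] (A : Set Z) : Prop :=
  IsCompact A ∧ IsConnected A

/-- `X` is not the union of two proper subcontinua. -/
def Indecomposable (X : Type) [TopologicalSpace X] : Prop :=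
  ∀ A B : Set X, IsSubcontinuum A → IsSubcontinuum B → A ∪ B = univ → A = univ ∨ B = univ

/-- The set function `T`. -/
def setT {S : Type} [TopologicalSpace S] (A : Set S) : Set S :=
  {p | ∀ K : Set S, IsSubcontinuum K → p ∈ interior K → (K ∩ A).Nonempty}

abbrev I := unitInterval

abbrev Q := ℕ → Bool

/-- `X` is the suspension of the two homeomorphisms `σ false`, `σ true` of `Q`:
the edges `Φ (q, i, ·)` run from the vertex `Φ (q, ·, 0)` to the vertex `Φ (σ i q, ·, 0)`. -/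
structure Model (σ : Bool → Q ≃ₜ Q) (X : Type) [TopologicalSpace X]
    (Φ : Q × Bool × I → X) : Prop where
  cont : Continuous Φ
  surj : Function.Surjective Φ
  bot : ∀ q i j, Φ (q, i, 0) = Φ (q, j, 0)
  top : ∀ q i j, Φ (q, i, 1) = Φ (σ i q, j, 0)
  fact : ∀ f : Q × Bool × I → ℝ, Continuous f → (∀ q i j, f (q, i, 0) = f (q, j, 0)) →
    (∀ q i j, f (q, i, 1) = f (σ i q, j, 0)) → ∃ g : X → ℝ, Continuous g ∧ ∀ p, g (Φ p) = f p

/-- No nontrivial invariant clopen set. -/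
def Trans (σ : Bool → Q ≃ₜ Q) : Prop :=
  ∀ D : Set Q, IsClopen D → (∀ i q, q ∈ D ↔ σ i q ∈ D) → D = ∅ ∨ D = univ

/-- Clopen sets which are almost invariant (cut only inside `C₁`, under `σ i`) and split `C₂`. -/
def Cuts (σ : Bool → Q ≃ₜ Q) : Prop :=
  ∀ (i : Bool) (C₁ C₂ : Set Q), IsOpen C₁ → C₁.Nonempty → IsOpen C₂ → C₂.Nonempty →
    ∃ D : Set Q, IsClopen D ∧ (∀ j q, (q ∈ D ↔ σ j q ∈ D) ∨ (j = i ∧ q ∈ C₁)) ∧
      (∃ q ∈ C₂, q ∈ D ∧ ∀ j, σ j q ∈ D) ∧ (∃ q ∈ C₂, q ∉ D ∧ ∀ j, σ j q ∉ D)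

/-- The concrete maps: flip the digit `n` iff `typ n = i` and the first `n` digits are those
of the word `wd n`. -/
def sgf (typ : ℕ → Bool) (wd : ℕ → ℕ → Bool) (i : Bool) (x : Q) : Q :=
  fun n => if typ n = i ∧ ∀ k < n, x k = wd n k then !(x n) else x n

def Recur (typ : ℕ → Bool) (wd : ℕ → ℕ → Bool) : Prop :=
  ∀ (i : Bool) (w : Q) (m N : ℕ), ∃ n ≥ N, typ n = i ∧ ∀ k < m, wd n k = w k

/-- The pattern of the first continuum, page `i`, coordinates `s`, `t`. -/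
def M1 : Bool → ℝ → ℝ → Prop
  | false, s, t => t = 1/8 ∨ (s ≤ 1/4 ∧ t = 5/8) ∨ (s = 1/4 ∧ 1/8 ≤ t ∧ t ≤ 5/8) ∨
      (3/8 ≤ s ∧ s ≤ 5/8 ∧ 1/16 ≤ t ∧ t ≤ 3/16)
  | true, s, t => t = 5/8 ∨ (s = 1/4 ∧ (5/8 ≤ t ∨ t ≤ 1/8)) ∨ (s ≤ 1/4 ∧ t = 1/8)

def Wset {X : Type} (Φ : Q × Bool × I → X) : Set (X × X) :=
  {z | ∃ (q : Q) (i : Bool) (s : I) (r : Q) (j : Bool) (t : I),
    M1 i s t ∧ z = (Φ (q, i, s), Φ (r, j, t))}

def Kset {X : Type} (Φ : Q × Bool × I → X) : Set (X × X) :=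
  {z | ∃ (q : Q) (i : Bool) (s : I) (r : Q) (j : Bool) (t : I),
    M1 i (1 - (s : ℝ)) (1 - (t : ℝ)) ∧ z = (Φ (q, i, s), Φ (r, j, t))}

def S_ENUM : Prop := ∃ (typ : ℕ → Bool) (wd : ℕ → ℕ → Bool), Recur typ wd

def S_HOMEO : Prop := ∀ (typ : ℕ → Bool) (wd : ℕ → ℕ → Bool),
  ∃ σ : Bool → Q ≃ₜ Q, ∀ i x, σ i x = sgf typ wd i x

def S_TRANS : Prop := ∀ (typ : ℕ → Bool) (wd : ℕ → ℕ → Bool) (σ : Bool → Q ≃ₜ Q),
  (∀ i x, σ i x = sgf typ wd i x) → Trans σ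

def S_CUTS : Prop := ∀ (typ : ℕ → Bool) (wd : ℕ → ℕ → Bool), Recur typ wd →
  ∀ σ : Bool → Q ≃ₜ Q, (∀ i x, σ i x = sgf typ wd i x) → Cuts σ

def S_MODEL : Prop := ∀ σ : Bool → Q ≃ₜ Q,
  ∃ (X : Type) (_ : TopologicalSpace X) (Φ : Q × Bool × I → X), T2Space X ∧ Model σ X Φ

def S_MET : Prop := ∀ (P X : Type) [TopologicalSpace P] [TopologicalSpace X] [CompactSpace P]
  [TopologicalSpace.MetrizableSpace P] [T2Space X] (Φ : P → X), Continuous Φ →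
  Function.Surjective Φ → TopologicalSpace.MetrizableSpace X

def S_CONN : Prop := ∀ (σ : Bool → Q ≃ₜ Q) (X : Type) [TopologicalSpace X]
  (Φ : Q × Bool × I → X), Model σ X Φ → Trans σ → ConnectedSpace X

def S_IND : Prop := ∀ (σ : Bool → Q ≃ₜ Q) (X : Type) [TopologicalSpace X] [T2Space X]
  (Φ : Q × Bool × I → X), Model σ X Φ → Cuts σ → Indecomposable X

def S_WCONN : Prop := ∀ (σ : Bool → Q ≃ₜ Q) (X : Type) [TopologicalSpace X] [T2Space X]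
  (Φ : Q × Bool × I → X), Continuous Φ → (∀ q i j, Φ (q, i, 0) = Φ (q, j, 0)) →
  (∀ q i j, Φ (q, i, 1) = Φ (σ i q, j, 0)) → Trans σ → IsConnected (Wset Φ)

def S_KCONN : Prop := ∀ (σ : Bool → Q ≃ₜ Q) (X : Type) [TopologicalSpace X] [T2Space X]
  (Φ : Q × Bool × I → X), Continuous Φ → (∀ q i j, Φ (q, i, 0) = Φ (q, j, 0)) →
  (∀ q i j, Φ (q, i, 1) = Φ (σ i q, j, 0)) → Trans σ → IsConnected (Kset Φ)

def S_DISJ : Prop := ∀ (σ : Bool → Q ≃ₜ Q) (X : Type) [TopologicalSpace X]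
  (Φ : Q × Bool × I → X), Model σ X Φ → Disjoint (Wset Φ) (Kset Φ)

def S_INT : Prop := ∀ (σ : Bool → Q ≃ₜ Q) (X : Type) [TopologicalSpace X]
  (Φ : Q × Bool × I → X), Model σ X Φ →
  (interior (Wset Φ)).Nonempty ∧ (interior (Kset Φ)).Nonempty

def S_CPT : Prop := ∀ (X : Type) [TopologicalSpace X]
  (Φ : Q × Bool × I → X), Continuous Φ → IsCompact (Wset Φ) ∧ IsCompact (Kset Φ)

end Pool.Agent.N936.TC
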