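import Pool.Agent.N936.TC.Stm

/-! PROJECT TC (helper936), MP_cdfe0d_gt: assembly of the leaves. -/

namespace Pool.Agent.N936.TC

open Set Topology

theorem main (hENUM : S_ENUM) (hHOMEO : S_HOMEO) (hTRANS : S_TRANS) (hCUTS : S_CUTS)
    (hMODEL : S_MODEL) (hMET : S_MET) (hCONN : S_CONN) (hIND : S_IND) (hWCONN : S_WCONN)
    (hKCONN : S_KCONN) (hDISJ : S_DISJ) (hINT : S_INT) (hCPT : S_CPT) :
    ∃ (X : Type) (_ : TopologicalSpace X), CompactSpace X ∧ T2Space X ∧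
      TopologicalSpace.MetrizableSpace X ∧ ConnectedSpace X ∧ Indecomposable X ∧
      ∃ W K : Set (X × X), IsSubcontinuum W ∧ IsSubcontinuum K ∧ (interior W).Nonempty ∧
        (interior K).Nonempty ∧ Disjoint W K := by
  obtain ⟨typ, wd, hR⟩ := hENUM
  obtain ⟨σ, hσ⟩ := hHOMEO typ wd
  have hT : Trans σ := hTRANS typ wd σ hσ
  have hC : Cuts σ := hCUTS typ wd hR σ hσ
  obtain ⟨X, tX, Φ, h2, hM⟩ := hMODEL σ
  refine ⟨X, tX, ?_, h2, ?_, hCONN σ X Φ hM hT, hIND σ X Φ hM hC, Wset Φ, Kset Φ, ?_, ?_,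
    (hINT σ X Φ hM).1, (hINT σ X Φ hM).2, hDISJ σ X Φ hM⟩
  · constructor
    have := isCompact_range hM.cont
    rwa [hM.surj.range_eq] at this
  · exact hMET (Q × Bool × I) X Φ hM.cont hM.surj
  · exact ⟨(hCPT X Φ hM.cont).1, hWCONN σ X Φ hM.cont hM.bot hM.top hT⟩
  · exact ⟨(hCPT X Φ hM.cont).2, hKCONN σ X Φ hM.cont hM.bot hM.top hT⟩

end Pool.Agent.N936.TC
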