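import Pool.Agent.N936.TC.Stm

/-! PROJECT TC (helper936), MP_cdfe0d_gt: the suspension as a compact Hausdorff space. -/

namespace Pool.Agent.N936.TC.MO

open Set Topology Pool.Agent.N936.TC

/-- the compatible continuous functions -/
def CF (σ : Bool → Q ≃ₜ Q) : Type :=
  {f : Q × Bool × I → ℝ // Continuous f ∧ (∀ q i j, f (q, i, 0) = f (q, j, 0)) ∧
    ∀ q i j, f (q, i, 1) = f (σ i q, j, 0)}

def FF (σ : Bool → Q ≃ₜ Q) (p : Q × Bool × I) : CF σ → ℝ := fun f => f.1 p

theorem t_model : S_MODEL := by
  intro σ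
  refine ⟨Set.range (FF σ), inferInstance, Set.rangeFactorization (FF σ), inferInstance, ?_⟩
  constructor
  · refine Continuous.subtype_mk ?_ _
    exact continuous_pi fun f => f.2.1
  · exact Set.rangeFactorization_surjective
  · intro q i j
    apply Subtype.ext
    funext f
    exact f.2.2.1 q i j
  · intro q i j
    apply Subtype.ext
    funext f
    exact f.2.2.2 q i j
  · intro f hf h0 h1
    refine ⟨fun x => x.1 ⟨f, hf, h0, h1⟩, ?_, fun p => rfl⟩
    exact (continuous_apply (⟨f, hf, h0, h1⟩ : CF σ)).comp continuous_subtype_val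

end Pool.Agent.N936.TC.MO
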